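import Pool.Agent.L5helper54.BP.Csp

/-!
# The Bodirsky-Pinsker dichotomy for unions of few uniformly random orbits: the threshold is three

Let `𝔹` be an infinite homogeneous structure in a finite relational signature whose age is closed
under mixing (replacing the structure on a set of points by another member of the age), for instance
the generic structure in this signature, the random graph, digraph or `r`-uniform hypergraph. The
types of injective `n`-tuples are the structures on `n` points in the age. We consider the template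
with the relation of the injective tuples which have one of `m` types `H_0, ..., H_{m-1}`, that is the
union of `m` orbits of `Aut 𝔹`.

* The constraint satisfaction problem of the template is a problem with one variable with `m` values
  for every constraint and binary conditions; for `m = 2` it is an instance of 2-SAT.
* For `m ≥ 3` and for all but a proportion `(1 - T ^ (-m)) ^ ⌊n / 9 k⌋` of the vectors of types the
  template pp-constructs `K_3`; here `T` is the number of types of injective `9 k`-tuples, and `k` is
  such that there are two types of injective `k`-tuples. This tends to zero for `3 ≤ m ≤ c log n`.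
-/

namespace Pool.Agent.Results.MP_6ab439_lc.FewRandomOrbits

open Pool.Agent.W994.AR Pool.Agent.L5helper54.BP

/-- the template: the injective tuples of one of the types `H i` -/
def Template {B σ : Type} {ar : σ → ℕ} (𝔹 : Str σ ar B) {n m : ℕ} (H : Fin m → Typ 𝔹 n) :
    Str (Fin 1) (fun _ => n) B := fun _ => Rel 𝔹 H

theorem result {B σ : Type} [Infinite B] [Finite σ] {ar : σ → ℕ} (har : ∀ i, 0 < ar i)
    (𝔹 : Str σ ar B) :
    -- examples of structures whose age is closed under mixing
    (∀ irr sym : σ → Prop, (∀ (n : ℕ) (H : Str σ ar (Fin n)), Embeds H 𝔹 ↔ Flags irr sym H) →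
      MixClosed 𝔹) ∧
    (Homogeneous 𝔹 → MixClosed 𝔹 →
      -- there are finitely many types, and the templates are reducts of homogeneous structures which
      -- are finitely bounded if `𝔹` is
      (∀ n, Finite (Typ 𝔹 n)) ∧
      (∀ (n m : ℕ) (H : Fin m → Typ 𝔹 n), Homogeneous (expand 𝔹 (Template 𝔹 H)) ∧
        (FinitelyBounded 𝔹 → FinitelyBounded (expand 𝔹 (Template 𝔹 H)))) ∧
      -- the constraint satisfaction problem
      (∀ (n m N : ℕ) (H : Fin m → Typ 𝔹 n) (C : Set (Fin n → Fin N)),
        (∃ f : Fin N → B, ∀ c ∈ C, (fun j => f (c j)) ∈ Template 𝔹 H 0) ↔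
          (∀ c ∈ C, Function.Injective c) ∧
          ∃ i : C → Fin m, ∀ (c c' : C) (ρ : σ) (s s' : Fin (ar ρ) → Fin n),
            (∀ j, c.1 (s j) = c'.1 (s' j)) → (s ∈ (H (i c)).1 ρ ↔ s' ∈ (H (i c')).1 ρ)) ∧
      -- three or more random orbits
      (∀ (k : ℕ) (θ θ' : Typ 𝔹 k), θ ≠ θ' →
        ∀ (ι : Type) (arι : ι → ℕ) (Γ : Str ι arι B) (n m : ℕ), 3 ≤ m →
          (Nat.card {H : Fin m → Typ 𝔹 n // ¬ PPConstructsK3 (expand Γ (Template 𝔹 H))} : ℝ) ≤
            (1 - 1 / (Nat.card (Typ 𝔹 (9 * k)) : ℝ) ^ m) ^ (n / (9 * k)) *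
              Nat.card (Fin m → Typ 𝔹 n))) := by
  refine ⟨fun irr sym h => mixClosed_of_flags irr sym h, fun h𝔹 hmix =>
    ⟨finite_typ 𝔹, fun n m H => ?_, fun n m N H C => csp hmix H C, ?_⟩⟩
  · have hinv : ∀ j, Invar (autGroup 𝔹) (Template 𝔹 H j) := fun _ => invar_rel h𝔹 H
    exact ⟨homogeneous_expand h𝔹 _ hinv, fun h => finitelyBounded_expand h𝔹 h _ hinv⟩
  · intro k θ θ' hθ ι arι Γ n m hm
    exact bound h𝔹 har hmix hθ Γ n m hm

end Pool.Agent.Results.MP_6ab439_lc.FewRandomOrbits
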