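import Pool.Agent.X99.SY.M

/-!
# Almost all injective relations are hard templates

Let `𝔹` be an infinite homogeneous structure in a finite relational signature whose automorphisms preserve a linear order of
the domain (for example an ordered Ramsey expansion). An invariant relation is injective if it consists of injective tuples.
The injective relations are a vanishing proportion of the invariant relations, so the results on almost all invariant relations
say nothing about them; and templates with a nonempty injective relation of arity at least two never have a constant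
endomorphism. We show that all but a proportion `exp(K k^r - c k!)` of the injective invariant relations `R` of arity `k`
are such that every template which has `R` as a relation pp-constructs `K_3`; moreover `R` alone primitively positively
defines all the injective invariant relations of arity at most `m`.

Definitions. From `Pool.Agent.W994.AR`: `Str σ ar B`: a structure on `B`, one relation `Set (Fin (ar i) → B)` for each symbol
`i : σ`; `autGroup 𝔹`: its automorphism group; `Invar G S`: `S` is invariant under `G`; `Homogeneous`, `FinitelyBounded`,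
`PPConstructsK3`: as in the problem; `PPDef 𝔸 S`: `S` is primitive positive definable in `𝔸`; `expand Γ R`: the structure with
the relations of `Γ` and the relations `R j`. From `Pool.Agent.X99.SY.F`: `InjOrb G k`: the type of the orbits of injective
`k`-tuples; `InjRel G k`: the type of the `G`-invariant relations of arity `k` all of whose tuples are injective.
-/

set_option autoImplicit false

namespace Pool.Agent.Results.MP_6ab439_lc.InjectiveRelations

open Pool.Agent.W994.AR Pool.Agent.X99.SY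

/-- All the templates with the relation `R` (and arbitrary other relations) pp-construct `K_3`, and `R` alone
primitively positively defines all the relations of arity at most `m` which are invariant under the automorphisms
of `𝔹` and consist of injective tuples. -/
def Hard {B σ : Type} {arB : σ → ℕ} (𝔹 : Str σ arB B) (m : ℕ) {k : ℕ} (R : Set (Fin k → B)) : Prop :=
  (∀ (ι : Type) (arΓ : ι → ℕ) (Γ : Str ι arΓ B),
    PPConstructsK3 (expand Γ (τ := Fin 1) (k := fun _ => k) (fun _ => R))) ∧
  ∀ q, q ≤ m → ∀ S : Set (Fin q → B), Invar (autGroup 𝔹) S → (∀ v ∈ S, Function.Injective v) →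
    PPDef (fun _ : Fin 1 => R : Str (Fin 1) (fun _ => k) B) S

/-- pp-definitions over `expand` of the empty family -/
theorem ppDef_of_expand {B : Type} {k : ℕ} {R : Set (Fin k → B)} {V : Type} {S : Set (V → B)}
    (h : PPDef (expand (ι := Empty) (arΓ := fun e => e.elim) (fun e => e.elim : Str Empty (fun e => e.elim) B)
      (τ := Fin 1) (k := fun _ => k) (fun _ => R)) S) :
    PPDef (fun _ : Fin 1 => R : Str (Fin 1) (fun _ => k) B) S := by
  obtain ⟨q, Φ, h⟩ := h
  let T : Atom (Empty ⊕ Fin 1) (Sum.elim (fun e : Empty => e.elim) fun _ : Fin 1 => k) (V ⊕ Fin q) →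
      Atom (Fin 1) (fun _ => k) (V ⊕ Fin q) := fun φ =>
    match φ with
    | .eq x y => .eq x y
    | .rel (.inl e) _ => e.elim
    | .rel (.inr i) x => .rel i x
  refine ⟨q, Φ.map T, fun v => ?_⟩
  rw [h v]
  have key : ∀ (u : Fin q → B) (φ : Atom (Empty ⊕ Fin 1) (Sum.elim (fun e : Empty => e.elim) fun _ : Fin 1 => k)
      (V ⊕ Fin q)), (T φ).Holds (fun _ : Fin 1 => R : Str (Fin 1) (fun _ => k) B) (Sum.elim v u) ↔
        φ.Holds (expand (ι := Empty) (arΓ := fun e => e.elim) (fun e => e.elim : Str Empty (fun e => e.elim) B)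
      (τ := Fin 1) (k := fun _ => k) (fun _ => R)) (Sum.elim v u) := by
    intro u φ
    rcases φ with ⟨x, y⟩ | ⟨e | i, x⟩
    · exact Iff.rfl
    · exact e.elim
    · exact Iff.rfl
  constructor
  · rintro ⟨u, hu⟩
    refine ⟨u, fun φ hφ => ?_⟩
    obtain ⟨ψ, hψ, rfl⟩ := List.mem_map.1 hφ
    exact (key u ψ).2 (hu ψ hψ)
  · rintro ⟨u, hu⟩
    exact ⟨u, fun φ hφ => (key u φ).1 (hu _ (List.mem_map.2 ⟨φ, hφ, rfl⟩))⟩

theorem result {B σ : Type} [Infinite B] [LinearOrder B] [Finite σ] {arB : σ → ℕ} (𝔹 : Str σ arB B)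
    (h𝔹 : Homogeneous 𝔹) (hord : ∀ g ∈ autGroup 𝔹, StrictMono g) :
    -- the number of injective invariant relations
    (∀ k : ℕ, Finite (InjOrb (autGroup 𝔹) k) ∧ k.factorial ≤ Nat.card (InjOrb (autGroup 𝔹) k) ∧
      Nat.card (InjRel (autGroup 𝔹) k) = 2 ^ Nat.card (InjOrb (autGroup 𝔹) k)) ∧
    -- the templates are reducts of homogeneous, finitely bounded structures
    (∀ (k : ℕ) (R : InjRel (autGroup 𝔹) k) (ι : Type) [Finite ι] (arΓ : ι → ℕ) (Γ : Str ι arΓ B),
      (∀ l, Invar (autGroup 𝔹) (Γ l)) →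
        Homogeneous (expand 𝔹 (expand Γ (τ := Fin 1) (k := fun _ => k) (fun _ => R.1.1))) ∧
        (FinitelyBounded 𝔹 →
          FinitelyBounded (expand 𝔹 (expand Γ (τ := Fin 1) (k := fun _ => k) (fun _ => R.1.1))))) ∧
    -- almost all of them are hard
    ∀ m : ℕ, ∃ (k₀ K r : ℕ) (c : ℝ), 0 < c ∧ ∀ k : ℕ, k₀ ≤ k →
      (Nat.card {R : InjRel (autGroup 𝔹) k // ¬ Hard 𝔹 m R.1.1} : ℝ) ≤
        Real.exp (K * (k : ℝ) ^ r - c * k.factorial) * Nat.card (InjRel (autGroup 𝔹) k) := by
  classical
  have := Fintype.ofFinite σ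
  have hfin : ∀ k, Finite (Orb (autGroup 𝔹) (Fin k)) := fun k => hom_finite h𝔹 (Fin k)
  refine ⟨fun k => ?_, ?_, fun m => ?_⟩
  · have h1 := hfin k
    have h2 : Finite (InjOrb (autGroup 𝔹) k) := inferInstance
    refine ⟨h2, factorial_le hord k, ?_⟩
    have := Fintype.ofFinite (InjOrb (autGroup 𝔹) k)
    rw [Nat.card_congr (injEquiv (autGroup 𝔹) k), Nat.card_eq_fintype_card, Fintype.card_set,
      Nat.card_eq_fintype_card]
  · intro k R ι _ arΓ Γ hΓ
    have hinv : ∀ j, Invar (autGroup 𝔹) (expand Γ (τ := Fin 1) (k := fun _ => k) (fun _ => R.1.1) j) := by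
      rintro (l | j)
      · exact hΓ l
      · exact R.1.2
    exact ⟨homogeneous_expand h𝔹 _ hinv, fun h => finitelyBounded_expand h𝔹 h _ hinv⟩
  obtain ⟨K, r, hK⟩ := orb_card_le h𝔹
  set p : ℕ := max m 6 with hp
  have hpm : m ≤ p := le_max_left _ _
  have hp6 : 6 ≤ p := le_max_right _ _
  set a : ℕ := (Finset.range (p + 1)).sup (fun q => Nat.card (Orb (autGroup 𝔹) (Fin q))) with ha
  refine ⟨max p (a + 1), K * (a + 1), r, (2⁻¹ : ℝ) ^ (a + 1) / (a + 1) ^ 2, by positivity, fun k hk => ?_⟩
  have hkp : p ≤ k := le_trans (le_max_left _ _) hk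
  have hka : a < k.factorial := lt_of_lt_of_le (le_trans (le_max_right _ _) hk) (Nat.self_le_factorial k)
  have hfk := hfin k
  have hfinO : Finite (InjOrb (autGroup 𝔹) k) := inferInstance
  have hfinR : Finite (InjRel (autGroup 𝔹) k) := Finite.of_equiv _ (injEquiv (autGroup 𝔹) k).symm
  have hgood : ∀ R : InjRel (autGroup 𝔹) k, Sep (autGroup 𝔹) a R.1.1 → Hard 𝔹 m R.1.1 := by
    intro R hR
    refine ⟨fun ι arΓ Γ => ?_, fun q hq S hS hSi => ?_⟩
    · have hfV : Finite (Orb (autGroup 𝔹) (Fin 3 ⊕ Fin 3)) := hom_finite h𝔹 _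
      have e : Fin 6 ≃ Fin 3 ⊕ Fin 3 := (Fintype.equivFinOfCardEq (by simp)).symm
      have hcard : Nat.card (Orb (autGroup 𝔹) (Fin 3 ⊕ Fin 3)) ≤ Nat.card (Orb (autGroup 𝔹) (Fin 6)) := by
        have := hfin 6
        refine Nat.card_le_card_of_surjective (fun o : Orb (autGroup 𝔹) (Fin 6) =>
          Quotient.map' (s₁ := orb (autGroup 𝔹) (Fin 6)) (s₂ := orb (autGroup 𝔹) (Fin 3 ⊕ Fin 3))
            (fun u => u ∘ e.symm) (fun _ _ h => Same.comp h _) o) ?_
        intro o
        obtain ⟨v, rfl⟩ := Quotient.exists_rep o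
        refine ⟨Quotient.mk _ (v ∘ e), ?_⟩
        show Quotient.mk _ ((v ∘ e) ∘ e.symm) = _
        congr 1
        funext x
        simp
      have hqa : Nat.card (Orb (autGroup 𝔹) (Fin 3 ⊕ Fin 3)) ≤ a := hcard.trans
        (Finset.le_sup (f := fun q => Nat.card (Orb (autGroup 𝔹) (Fin q))) (Finset.mem_range.2 (by omega)))
      exact K3_of_pp (pp_all_inj hord Γ (by omega) (by simp; omega) hka hqa R.1.2 R.2 hR
        (K3rel_invar hord) (fun v hv => hv.1))
    · have hfq := hfin q
      have hqa : Nat.card (Orb (autGroup 𝔹) (Fin q)) ≤ a :=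
        Finset.le_sup (f := fun q => Nat.card (Orb (autGroup 𝔹) (Fin q))) (Finset.mem_range.2 (by omega))
      exact ppDef_of_expand (pp_all_inj hord _ (by omega)
        (by simpa using (hq.trans hpm).trans hkp) hka hqa R.1.2 R.2 hR hS hSi).toPPDef
  have hle : Nat.card {R : InjRel (autGroup 𝔹) k // ¬ Hard 𝔹 m R.1.1} ≤
      Nat.card {R : InjRel (autGroup 𝔹) k // ¬ Sep (autGroup 𝔹) a R.1.1} := by
    apply Nat.card_le_card_of_injective (fun R => ⟨R.1, fun h => R.2 (hgood R.1 h)⟩)
    intro R R' h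
    exact Subtype.ext (congrArg (fun x => x.1) h)
  have hN : (Nat.card (Orb (autGroup 𝔹) (Fin k)) : ℝ) ≤ Real.exp (K * (k : ℝ) ^ r) := by
    have := hK k (by omega)
    linarith
  calc (Nat.card {R : InjRel (autGroup 𝔹) k // ¬ Hard 𝔹 m R.1.1} : ℝ)
      ≤ Nat.card {R : InjRel (autGroup 𝔹) k // ¬ Sep (autGroup 𝔹) a R.1.1} := by exact_mod_cast hle
    _ ≤ (Nat.card (Orb (autGroup 𝔹) (Fin k)) : ℝ) ^ (a + 1) *
      Real.exp (-((2⁻¹ : ℝ) ^ (a + 1) * (k.factorial / (a + 1) ^ 2))) * Nat.card (InjRel (autGroup 𝔹) k) :=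
        sep_count hord a k
    _ ≤ Real.exp (K * (k : ℝ) ^ r) ^ (a + 1) *
      Real.exp (-((2⁻¹ : ℝ) ^ (a + 1) * (k.factorial / (a + 1) ^ 2))) * Nat.card (InjRel (autGroup 𝔹) k) := by
        apply mul_le_mul_of_nonneg_right _ (Nat.cast_nonneg _)
        apply mul_le_mul_of_nonneg_right _ (Real.exp_pos _).le
        exact pow_le_pow_left₀ (Nat.cast_nonneg _) hN _
    _ = _ := by
        rw [← Real.exp_nat_mul, ← Real.exp_add]
        congr 2
        push_cast
        ring

end Pool.Agent.Results.MP_6ab439_lc.InjectiveRelations
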