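import Pool.Agent.L5helper59.BP.Concrete

/-!
# The Bodirsky-Pinsker dichotomy for templates generated by random tuples: a threshold

Let `𝔹` be a homogeneous structure in a finite relational signature, with a countable domain `B`, and let `ν` be a probability
measure on `B`. Take `m` independent random tuples in `B^n`, with independent entries of the law `ν`, and let `R` be the
relation of arity `n` which they generate, that is, the union of their orbits under the automorphisms of `𝔹`. Let `c < 1` be the
largest probability of a point. If `2 ≤ m ≤ c^{-(1-ε)n}` and the support of `ν` is infinite, or if `3 ≤ m ≤ c^{-(1-ε)n}`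
(for every `𝔹` and `ν`), then the template `(B; R)` pp-constructs `K_3`, whatever relations are added to it, outside of an event
of exponentially small probability. If `m ≥ c^{-(1+ε)n}`, then `(B; R)` has a constant endomorphism (so its CSP is trivial)
outside of an event of probability at most `exp(-c^{-εn})`. The lower bounds `2` and `3` on the number of the tuples are
optimal: one tuple never generates a hard template over the pure set `(ℕ; =)`, and two tuples never generate one over a finite
set with names for all the elements.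

Definitions. From `Pool.Agent.W994.AR`: `Str σ ar B`: a structure on `B`, one relation `Set (Fin (ar i) → B)` for each symbol
`i : σ`; `autGroup 𝔹`: its automorphism group; `Homogeneous`, `FinitelyBounded`, `PPConstructsK3`: as in the problem;
`expand Γ R`: the structure with the relations of `Γ` and the relations `R j`; `ConstEndo 𝔸`: a constant map is an
endomorphism; `Same G u v`: `v` is the image of `u` under an element of `G`. From `Pool.Agent.L5helper59.BP`:
`law ν n m`: the law of `m` independent tuples in `B^n` with independent entries of the law `ν`; `rel G ω`: the union of the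
orbits of the tuples `ω j` under `G`; `named N`: the set `{0, ..., N-1}` with one unary relation `{b}` for each element `b`;
`pureSet`: the set `ℕ` without relations.
-/

set_option autoImplicit false

namespace Pool.Agent.Results.MP_6ab439_lc.RandomTuples

open Pool.Agent.W994.AR Pool.Agent.L5helper59.BP MeasureTheory

theorem result :
    (∀ {B σ : Type} [Countable B] [MeasurableSpace B] [DiscreteMeasurableSpace B] [Finite σ] {arB : σ → ℕ}
      (𝔹 : Str σ arB B) (_ : Homogeneous 𝔹) (ν : Measure B) [IsProbabilityMeasure ν]
      (b₀ : B) (_ : ∀ b, ν.real {b} ≤ ν.real {b₀}) (_ : ν.real {b₀} < 1),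
      -- below the threshold, almost all the templates are hard, together with all their expansions
      (∀ ε : ℝ, 0 < ε → ∃ C δ : ℝ, 0 < C ∧ 0 < δ ∧ ∀ n m : ℕ,
        (3 ≤ m ∨ (2 ≤ m ∧ {b | 0 < ν.real {b}}.Infinite)) → (m : ℝ) * ν.real {b₀} ^ ((1 - ε) * n) ≤ 1 →
        (law ν n m).real {ω | ¬ ∀ (ι : Type) (arΓ : ι → ℕ) (Γ : Str ι arΓ B), PPConstructsK3
          (expand Γ (τ := Fin 1) (k := fun _ => n) (fun _ => rel (autGroup 𝔹) ω))} ≤ C * Real.exp (-(δ * n))) ∧
      -- above the threshold, almost all the templates are trivial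
      (∀ n m : ℕ, (law ν n m).real {ω | ¬ ConstEndo (ι := Fin 1) (ar := fun _ => n)
          (fun _ => rel (autGroup 𝔹) ω)} ≤ Real.exp (-(m * ν.real {b₀} ^ n))) ∧
      -- the templates are reducts of homogeneous (finitely bounded) structures
      (∀ (n m : ℕ) (ω : Fin m → Fin n → B),
        Homogeneous (expand 𝔹 (τ := Fin 1) (k := fun _ => n) (fun _ => rel (autGroup 𝔹) ω)) ∧
        (FinitelyBounded 𝔹 →
          FinitelyBounded (expand 𝔹 (τ := Fin 1) (k := fun _ => n) (fun _ => rel (autGroup 𝔹) ω))))) ∧
    -- one tuple never suffices over the pure set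
    ((Homogeneous pureSet ∧ FinitelyBounded pureSet) ∧ ∀ (n : ℕ) (ω : Fin 1 → Fin n → ℕ),
      ¬ PPConstructsK3 (ι := Fin 1) (ar := fun _ => n) (fun _ => rel (autGroup pureSet) ω)) ∧
    -- two tuples never suffice over a finite set with names for all the elements
    (∀ N : ℕ, (Homogeneous (named N) ∧ FinitelyBounded (named N)) ∧ ∀ (n : ℕ) (ω : Fin 2 → Fin n → Fin N),
      ¬ PPConstructsK3 (ι := Fin 1) (ar := fun _ => n) (fun _ => rel (autGroup (named N)) ω)) := by
  classical
  refine ⟨?_, ⟨⟨pure_homogeneous, pure_bounded⟩, fun n ω => ?_⟩,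
    fun N => ⟨⟨named_homogeneous N, finitelyBounded_of_finite _⟩, fun n ω => ?_⟩⟩
  · intro B σ _ _ _ _ arB 𝔹 h𝔹 ν _ b₀ hb₀ hc1
    set c := ν.real {b₀} with hc
    -- some point has positive probability
    have hex : ∃ b, 0 < ν.real {b} := by
      by_contra hcon
      push Not at hcon
      have h1 : ν Set.univ = 0 := by
        have h2 : (Set.univ : Set B) ⊆ ⋃ b : B, {b} := fun b _ => Set.mem_iUnion.2 ⟨b, rfl⟩
        refine le_antisymm ((measure_mono h2).trans ((measure_iUnion_le _).trans ?_)) bot_le
        have h3 : ∀ b : B, ν {b} = 0 := by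
          intro b
          have := le_antisymm (hcon b) measureReal_nonneg
          rw [Measure.real, ENNReal.toReal_eq_zero_iff] at this
          exact this.resolve_right (measure_ne_top _ _)
        simp [h3]
      rw [measure_univ] at h1
      exact one_ne_zero h1
    have hc0 : 0 < c := by
      obtain ⟨b, hb⟩ := hex
      exact hb.trans_le (hb₀ b)
    -- a second point
    obtain ⟨q₀, hq₀, hq₀pos⟩ : ∃ q, q ≠ b₀ ∧ 0 < ν.real {q} := by
      by_contra hcon
      push Not at hcon
      have h1 : ν {b₀}ᶜ = 0 := by
        have h2 : ({b₀}ᶜ : Set B) ⊆ ⋃ b : {b // b ≠ b₀}, {b.1} := fun b hb => Set.mem_iUnion.2 ⟨⟨b, hb⟩, rfl⟩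
        refine le_antisymm ((measure_mono h2).trans ((measure_iUnion_le _).trans ?_)) bot_le
        have h3 : ∀ b : {b // b ≠ b₀}, ν {b.1} = 0 := by
          intro b
          have := le_antisymm (hcon b.1 b.2) measureReal_nonneg
          rw [Measure.real, ENNReal.toReal_eq_zero_iff] at this
          exact this.resolve_right (measure_ne_top _ _)
        simp [h3]
      rw [prob_compl_eq_zero_iff (MeasurableSet.of_discrete)] at h1
      rw [hc, Measure.real, h1] at hc1
      simp at hc1
    refine ⟨?_, ?_, ?_⟩
    · intro ε hε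
      obtain ⟨C3, δ3, hC3, hδ3, h3⟩ := asym ν c hb₀ hc0 hc1 (e3 b₀ q₀) (by
        intro v l
        have : e3 b₀ q₀ v l = b₀ ∨ e3 b₀ q₀ v l = q₀ := by
          fin_cases v <;> fin_cases l <;> first | exact Or.inl rfl | exact Or.inr rfl
        rcases this with h | h
        · rw [h]; exact hc0
        · rw [h]; exact hq₀pos) ε hε
      have hthree : ∀ n m : ℕ, 3 ≤ m → (m : ℝ) * c ^ ((1 - ε) * n) ≤ 1 →
        (law ν n m).real {ω | ¬ ∀ (ι : Type) (arΓ : ι → ℕ) (Γ : Str ι arΓ B), PPConstructsK3
          (expand Γ (τ := Fin 1) (k := fun _ => n) (fun _ => rel (autGroup 𝔹) ω))} ≤ C3 * Real.exp (-(δ3 * n)) := by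
        intro n m hm hmc
        refine le_trans (measureReal_mono ?_ (measure_ne_top _ _)) (h3 n m hm hmc)
        intro ω hω hgood
        apply hω
        intro ι arΓ Γ
        exact k3_of_good_three (𝔸 := expand Γ (τ := Fin 1) (k := fun _ => n) (fun _ => rel (autGroup 𝔹) ω))
          (autGroup 𝔹) (Sum.inr 0) hm ω rfl hq₀.symm hgood
      by_cases hinf : {b | 0 < ν.real {b}}.Infinite
      · obtain ⟨p, hp, q, hq, r, hr, hpq, hqr, g, hg, hgp, hgq⟩ := exists_pqr h𝔹 hinf
        obtain ⟨C2, δ2, hC2, hδ2, h2⟩ := asym ν c hb₀ hc0 hc1 (e2 p q r) (by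
          intro v l
          have : e2 p q r v l = p ∨ e2 p q r v l = q ∨ e2 p q r v l = r := by
            fin_cases v <;> fin_cases l <;>
              first | exact Or.inl rfl | exact Or.inr (Or.inl rfl) | exact Or.inr (Or.inr rfl)
          rcases this with h | h | h
          · rw [h]; exact hp
          · rw [h]; exact hq
          · rw [h]; exact hr) ε hε
        refine ⟨C2, δ2, hC2, hδ2, fun n m hm hmc => ?_⟩
        have hm2 : 2 ≤ m := by
          rcases hm with h | h
          · omega
          · exact h.1
        refine le_trans (measureReal_mono ?_ (measure_ne_top _ _)) (h2 n m hm2 hmc)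
        intro ω hω hgood
        apply hω
        intro ι arΓ Γ
        exact k3_of_good_two (𝔸 := expand Γ (τ := Fin 1) (k := fun _ => n) (fun _ => rel (autGroup 𝔹) ω))
          (autGroup 𝔹) (Sum.inr 0) hm2 ω rfl hpq hqr hg hgp hgq hgood
      · refine ⟨C3, δ3, hC3, hδ3, fun n m hm hmc => hthree n m ?_ hmc⟩
        rcases hm with h | h
        · exact h
        · exact absurd h.2 hinf
    · intro n m
      refine le_trans (measureReal_mono ?_ (measure_ne_top _ _)) (no_const ν b₀ n m)
      rintro ω hω ⟨j, hj⟩
      apply hω
      refine ⟨b₀, fun _ _ _ => ⟨j, 1, (autGroup 𝔹).one_mem, fun i => ?_⟩⟩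
      rw [hj]
      rfl
    · intro n m ω
      exact ⟨homogeneous_expand h𝔹 _ (fun _ => rel_invar _ ω),
        fun h => finitelyBounded_expand h𝔹 h _ (fun _ => rel_invar _ ω)⟩
  · rw [pure_aut]
    exact not_k3_one (fun v j => ω j v)
  · rw [named_aut]
    exact not_k3_two (fun v j => ω j v)

end Pool.Agent.Results.MP_6ab439_lc.RandomTuples
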